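import Pool.Agent.H89.GM.MFin
import Pool.Graph.R_seed8.Y160.SL.Conv

/-!
# Exact positive ranks of Jacobians of superelliptic curves over towers of `p`-extensions of arbitrary
# global function fields, and bounded ranks in Kummer towers

Let `p` be a prime number, `O` a Dedekind domain in which `p` is invertible and which contains the
`p`-th roots of unity (for example the ring of functions on an affine curve over a finite field), with
the field of fractions `k₀`. Let `f` be a monic irreducible separable polynomial over `O` of degree
prime to `p`, such that `S = O[x] / (f)` is a Dedekind domain, and such that every element of `S` whose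
ideal is a `p`-th power and whose norm to `O` is a `p`-th power is a `p`-th power in `S`.

Let `K₀` be any field which is obtained from `k₀` by successive adjunctions of `p`-th roots, `A₀` the
integral closure of `O` in `K₀`, and suppose that `f` is irreducible and separable modulo the primes of
`O` which are ramified in `A₀`. The genus of `K₀` is not bounded.

Let `τ` be an element of `O` which is a prime of `A₀`, such that `f` is separable modulo `τ A₀` and
`f - τ` is the product of monic polynomials `Q₀, …, Q_r` over `O` which are irreducible modulo `τ A₀`.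
Suppose that `K₀` contains the roots of unity of order `p ^ l`, and put `K = K₀(s)`, `s ^ (p ^ l) = τ`.
If `p ^ l ≠ 2`, then suppose that the matrix of the `p`-th power residue symbols of the `Q_i` modulo
the `Q_j` is nondegenerate (its rank is `r`).

Theorem. Let `N = p ^ m`, `1 ≤ m ≤ l`, and let `J` be the Jacobian of the curve `w ^ N = f(x)`. Then
the `p`-primary part of the Tate-Shafarevich group of `J` over `K` is zero, and the `r (N - 1)` points
of `J(K)` given by the divisors `Q_i(x) = 0`, `w = (ζ ^ j s) ^ (p ^ l / N)`, `1 ≤ i ≤ r`,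
`0 ≤ j < N - 1`, are linearly independent over `ℤ` and generate `J(K)` modulo `p ^ n` for all `n`.

If `K` is a global function field, then it follows that `J(K)` has the rank `r (N - 1)` and a torsion
group of order prime to `p`, that `Ш(J / K)` is finite of order prime to `p` (Tate, Milne), and that
the full conjecture of Birch and Swinnerton-Dyer holds for `J / K` (Kato-Trihan): so the `L`-function
of `J / K` vanishes at `s = 1` precisely of order `r (N - 1)`. The rank does not depend on `l ≥ m`.
-/

set_option autoImplicit false
set_option linter.all false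

open Polynomial IsDedekindDomain
open scoped Classical

namespace Pool.Agent.Results.MP_60d5ce_nt.ExactRankSuperelliptic

open Pool.Agent.Y160.SL

/-- The polynomial `f` over `O` as a polynomial over the extension `K` of `O`. -/
noncomputable def polyOver {O : Type} [CommRing O] (f : O[X]) (K : Type) [Field K] [Algebra O K] :
    K[X] := f.map (algebraMap O K)

/-- The subfield of `K` generated by the ring `O` and the elements `s j`, `j < i`. -/
def level (O : Type) [CommRing O] {K : Type} [Field K] [Algebra O K] (s : ℕ → K) (i : ℕ) :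
    Subfield K :=
  Subfield.closure (Set.range (algebraMap O K) ∪ s '' {j | j < i})

/-- The field `K` is obtained from the field of fractions of `O` by successive adjunctions of the
`p`-th roots `s 0, …, s (n - 1)`: the `p`-th power of `s i` is in the field generated by `O` and the
elements `s j`, `j < i`. -/
structure IsTowerOfRoots (p : ℕ) (O : Type) [CommRing O] (K : Type) [Field K] [Algebra O K] (n : ℕ)
    (s : ℕ → K) : Prop where
  inj : Function.Injective (algebraMap O K)
  pw : ∀ i < n, s i ^ p ∈ level O s i
  gen : level O s n = ⊤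

/-- The conditions on the ring `O`: the prime number `p` is invertible in `O`, and `O` contains the
`p`-th roots of unity. -/
structure IsBase (p : ℕ) (O : Type) [CommRing O] : Prop where
  prime : p.Prime
  unit : IsUnit (p : O)
  zeta : ∃ ζ : O, IsPrimitiveRoot ζ p

/-- The conditions on the polynomial `f`: it is monic, irreducible and separable, of degree prime to
`p`, the ring `S = O[x] / (f)` is a Dedekind domain, and the Selmer group of the first descent is
zero: an element of `S` whose ideal is a `p`-th power and whose norm to `O` is a `p`-th power is a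
`p`-th power. -/
structure IsSelmerTrivial (p : ℕ) {O : Type} [CommRing O] (f : O[X]) : Prop where
  monic : f.Monic
  coprime : p.Coprime f.natDegree
  irreducible : Irreducible f
  separable : derivative f ≠ 0
  dedekind : IsDedekindDomain (AdjoinRoot f)
  trivial : ∀ (I : Ideal (AdjoinRoot f)) (a : AdjoinRoot f) (c : O), a ≠ 0 →
    I ^ p = Ideal.span {a} → Algebra.norm O a = c ^ p → ∃ b : AdjoinRoot f, a = b ^ p

/-- The polynomial `f` is irreducible and separable modulo the primes of `O` which are ramified in
`A`. -/
def InertBranching {O : Type} [CommRing O] [IsDedekindDomain O] (f : O[X]) (A : Type) [CommRing A]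
    [IsDedekindDomain A] [Algebra O A] : Prop :=
  ∀ (P : HeightOneSpectrum O) (Q : HeightOneSpectrum A),
    P.asIdeal.map (algebraMap O A) ≤ Q.asIdeal ^ 2 →
    Irreducible (f.map (Ideal.Quotient.mk P.asIdeal)) ∧
      (f.map (Ideal.Quotient.mk P.asIdeal)).Separable

/-- The polynomial `Q` over `O` as a polynomial over the residue ring `A / τ A`. -/
noncomputable def modulo {O : Type} [CommRing O] (A : Type) [CommRing A] [Algebra O A] (τ : O)
    (Q : O[X]) : (A ⧸ Ideal.span {algebraMap O A τ})[X] :=
  Q.map ((Ideal.Quotient.mk (Ideal.span {algebraMap O A τ})).comp (algebraMap O A))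

/-- The conditions on `τ` and the polynomials `Q 0, …, Q r`: the element `τ` is a prime of `A`, the
polynomial `f - τ` is the product of the monic polynomials `Q i`, which are irreducible modulo `τ A`,
and `f` is separable modulo `τ A`. -/
structure IsMarked {O : Type} [CommRing O] (f : O[X]) (τ : O) {r : ℕ} (Q : Fin (r + 1) → O[X])
    (A : Type) [CommRing A] [Algebra O A] : Prop where
  prime : Prime (algebraMap O A τ)
  monic : ∀ i, (Q i).Monic
  prod : ∏ i, Q i = f - C τ
  irreducible : ∀ i, Irreducible (modulo A τ (Q i))
  separable : (modulo A τ f).Separable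

/-- The matrix of the `p`-th power residue symbols of the `Q i` modulo the `Q j` is nondegenerate: if
`a` is a vector of exponents such that for every `j` the product of the polynomials
`Q i ^ (a i + (p - 1) a j)`, `i ≠ j`, is a `p`-th power in the field `(A / τ A)[x] / (Q j)`, then all
`a i` are congruent modulo `p`. -/
def IsNondegenerate (p : ℕ) {O : Type} [CommRing O] (τ : O) {r : ℕ} (Q : Fin (r + 1) → O[X])
    (A : Type) [CommRing A] [Algebra O A] : Prop :=
  ∀ a : Fin (r + 1) → ℕ,
    (∀ j, ∃ y : AdjoinRoot (modulo A τ (Q j)),
      AdjoinRoot.mk (modulo A τ (Q j))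
        (modulo A τ (∏ i ∈ Finset.univ.erase j, Q i ^ (a i + (p - 1) * a j))) = y ^ p) →
    ∀ i j, a i ≡ a j [MOD p]

/-- The ideal of the divisor `u(x) = 0`, `w = v(x)` in the coordinate ring of the affine curve
`w ^ q = f(x)`. -/
noncomputable def divIdeal {K : Type} [Field K] (q : ℕ) (f u v : K[X]) : Ideal (CoordRing q f) :=
  Ideal.span {ofPoly q f u, wfun q f - ofPoly q f v}

/-- The ideal `I` of `R` is an invertible module, and `P` is its class in the Picard group. -/
def IsIdealClass {R : Type} [CommRing R] (P : Additive (CommRing.Pic R)) (I : Ideal R) : Prop :=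
  ∃ _ : Module.Invertible R I, P = Additive.ofMul (CommRing.Pic.mk R I)

/-- The element `P` of `J(K) = Pic(K[x, w] / (w ^ q - f(x)))` is the class of the ideal of the divisor
`u(x) = 0`, `w = v(x)`. -/
def IsDivisor {K : Type} [Field K] (q : ℕ) (f u v : K[X]) (P : Jac q f K) : Prop :=
  IsIdealClass (R := CoordRing q (f.map (algebraMap K K))) P
    (divIdeal q (f.map (algebraMap K K)) u v)

/-- **The theorem.** -/
def Statement : Prop :=
  ∀ (p : ℕ) (O : Type) [CommRing O] [IsDedekindDomain O] (f : O[X]), IsBase p O →
    IsSelmerTrivial p f →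
    ∀ (K₀ : Type) [Field K₀] [Algebra O K₀] (n : ℕ) (s₀ : ℕ → K₀), IsTowerOfRoots p O K₀ n s₀ →
    ∀ (A₀ : Type) [CommRing A₀] [IsDedekindDomain A₀] [Algebra A₀ K₀] [IsFractionRing A₀ K₀]
      [Algebra O A₀] [IsScalarTower O A₀ K₀] [IsIntegralClosure A₀ O K₀], InertBranching f A₀ →
    ∀ (τ : O) (r : ℕ) (Q : Fin (r + 1) → O[X]), IsMarked f τ Q A₀ →
    ∀ (m l : ℕ) (ζ : K₀), m ≠ 0 → m ≤ l → IsPrimitiveRoot ζ (p ^ l) →
      (p ^ l = 2 ∨ IsNondegenerate p τ Q A₀) →
    ∀ (K : Type) [Field K] [Algebra K₀ K] [Algebra O K] [IsScalarTower O K₀ K] (s : K),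
      s ^ p ^ l = algebraMap O K τ → IntermediateField.adjoin K₀ {s} = ⊤ →
    ∀ (A : Type) [CommRing A] [IsDedekindDomain A] [Algebra A K] [IsFractionRing A K]
      [Algebra O A] [IsScalarTower O A K] [IsIntegralClosure A O K],
      ShaTriv p (p ^ m) A (polyOver f K) ∧
      ∃ D : Fin r × Fin (p ^ m - 1) → Jac (p ^ m) (polyOver f K) K,
        (LinearIndependent ℤ D ∧
          ∀ (n : ℕ) (x : Jac (p ^ m) (polyOver f K) K), ∃ y : Jac (p ^ m) (polyOver f K) K,
            x - p ^ n • y ∈ AddSubgroup.closure (Set.range D)) ∧
        ∀ i, IsDivisor (p ^ m) (polyOver f K) (polyOver (Q i.1.succ) K)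
          (C ((algebraMap K₀ K ζ ^ (i.2 : ℕ) * s) ^ p ^ (l - m))) (D i)

theorem result : Statement := by
  intro p O _ _ f hO hf K₀ _ _ n s₀ hT A₀ _ _ _ _ _ _ _ hB τ r Q hM m l ζ hm hml hζ hnd K _ _ _ _ s
    hs htop A _ _ _ _ _ _ _
  haveI := hf.dedekind
  have hpos : 0 < f.natDegree := by
    by_contra h
    have h1 : f = 1 := hf.monic.natDegree_eq_zero.1 (by omega)
    exact hf.irreducible.not_isUnit (h1 ▸ isUnit_one)
  obtain ⟨h1, D, h3, h4⟩ := Pool.Agent.H89.GM.sha_mark (p := p) (O := O) (f := f) (K' := K₀) (K := K)
    (A' := A₀) (A := A) (m := m) (l := l) (τ := τ) (Q := Q)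
    ⟨hO.prime, hO.unit, hO.zeta⟩ ⟨hf.monic, hpos, hf.coprime, hf.irreducible, hf.separable⟩
    hf.trivial hm hml hs htop hζ (m' := n) (s' := s₀) ⟨hT.inj, hT.pw, hT.gen⟩ hB
    ⟨hM.prime, hM.monic, hM.prod, hM.irreducible, hM.separable⟩ hnd
  exact ⟨shaTriv_of h1, D, h3, fun i => Pool.Agent.Q45.TW.cl_class (h4 i)⟩

end Pool.Agent.Results.MP_60d5ce_nt.ExactRankSuperelliptic
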