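import Pool.Agent.H89.GB.Fam
import Pool.Graph.R_seed8.Y160.SL.Conv

/-!
# A transfer theorem: Jacobians of superelliptic curves with rank zero and trivial
# Tate-Shafarevich group over towers of `p`-extensions of arbitrary global function fields

Let `p` be a prime number, `O` a Dedekind domain in which `p` is invertible and which contains the
`p`-th roots of unity (for example the ring of functions on an affine curve over a finite field, so
that the field of fractions `K₀` of `O` is an arbitrary global function field containing the `p`-th
roots of unity). Let `f` be a monic irreducible separable polynomial over `O` of degree prime to `p`,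
such that `S = O[x] / (f)` is a Dedekind domain, and such that every element of `S` whose ideal is a
`p`-th power and whose norm to `O` is a `p`-th power is a `p`-th power in `S` (this is a statement
about the class group and the units of `S`; it says that the Selmer group of the first descent over
`K₀` is zero).

Let `K` be any field which is obtained from `K₀` by successive adjunctions of `p`-th roots (for
example any Galois extension of `K₀` of degree a power of `p`), `A` the integral closure of `O` in
`K`, and suppose that the polynomial `f` is irreducible and separable modulo the primes of `O` which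
are ramified in `A`. The degree and the genus of `K` are not bounded.

Theorem. Let `N = p ^ m`, `m ≥ 1`, and suppose that `K` contains the `N`-th roots of unity. Let `J` be
the Jacobian of the curve `w ^ N = f(x)`. Then the `p`-primary part of the Tate-Shafarevich group of
`J` over `K` is zero (even with respect to the primes of `A` only), and the group `J(K)` is uniquely
divisible by `p`.

If `K` is a global function field, then it follows that `J(K)` is finite of order prime to `p`, that
`Ш(J / K)` is finite of order prime to `p` (Tate, Milne), and that the full conjecture of Birch and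
Swinnerton-Dyer holds for `J / K` (Kato-Trihan), with `L(J / K, 1) ≠ 0`.

The conditions are satisfied for all polynomials `f = g(x) + t` over `O = k[t]`, where `k` is a field,
and `g` is a monic polynomial over `k` of degree prime to `p` with `g' ≠ 0`; this is the second part
of the statement.
-/

set_option autoImplicit false
set_option linter.all false

open Polynomial IsDedekindDomain
open scoped Classical

namespace Pool.Agent.Results.MP_60d5ce_nt.RankZeroTransfer

open Pool.Agent.Y160.SL

/-- The polynomial `f` over `O` as a polynomial over the extension `K` of `O`. -/
noncomputable def polyOver {O : Type} [CommRing O] (f : O[X]) (K : Type) [Field K] [Algebra O K] :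
    K[X] := f.map (algebraMap O K)

/-- The subfield of `K` generated by the ring `O` and the elements `s j`, `j < i`. -/
def level (O : Type) [CommRing O] {K : Type} [Field K] [Algebra O K] (s : ℕ → K) (i : ℕ) :
    Subfield K :=
  Subfield.closure (Set.range (algebraMap O K) ∪ s '' {j | j < i})

/-- The field `K` is obtained from the field of fractions of `O` by successive adjunctions of the
`p`-th roots `s 0, …, s (n - 1)`: the `p`-th power of `s i` is in the field generated by `O` and the
elements `s j`, `j < i`. -/
structure IsTowerOfRoots (p : ℕ) (O : Type) [CommRing O] (K : Type) [Field K] [Algebra O K] (n : ℕ)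
    (s : ℕ → K) : Prop where
  inj : Function.Injective (algebraMap O K)
  pw : ∀ i < n, s i ^ p ∈ level O s i
  gen : level O s n = ⊤

/-- The conditions on the ring `O`: the prime number `p` is invertible in `O`, and `O` contains the
`p`-th roots of unity. -/
structure IsBase (p : ℕ) (O : Type) [CommRing O] : Prop where
  prime : p.Prime
  unit : IsUnit (p : O)
  zeta : ∃ ζ : O, IsPrimitiveRoot ζ p

/-- The conditions on the polynomial `f`: it is monic, irreducible and separable, of degree prime to
`p`, the ring `S = O[x] / (f)` is a Dedekind domain, and the Selmer group of the first descent is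
zero: an element of `S` whose ideal is a `p`-th power and whose norm to `O` is a `p`-th power is a
`p`-th power. -/
structure IsSelmerTrivial (p : ℕ) {O : Type} [CommRing O] (f : O[X]) : Prop where
  monic : f.Monic
  coprime : p.Coprime f.natDegree
  irreducible : Irreducible f
  separable : derivative f ≠ 0
  dedekind : IsDedekindDomain (AdjoinRoot f)
  trivial : ∀ (I : Ideal (AdjoinRoot f)) (a : AdjoinRoot f) (c : O), a ≠ 0 →
    I ^ p = Ideal.span {a} → Algebra.norm O a = c ^ p → ∃ b : AdjoinRoot f, a = b ^ p

/-- The polynomial `f` is irreducible and separable modulo the primes of `O` which are ramified in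
`A`. -/
def InertBranching {O : Type} [CommRing O] [IsDedekindDomain O] (f : O[X]) (A : Type) [CommRing A]
    [IsDedekindDomain A] [Algebra O A] : Prop :=
  ∀ (P : HeightOneSpectrum O) (Q : HeightOneSpectrum A),
    P.asIdeal.map (algebraMap O A) ≤ Q.asIdeal ^ 2 →
    Irreducible (f.map (Ideal.Quotient.mk P.asIdeal)) ∧
      (f.map (Ideal.Quotient.mk P.asIdeal)).Separable

/-- **The theorem.** -/
def Statement : Prop :=
  (∀ (p : ℕ) (O : Type) [CommRing O] [IsDedekindDomain O] (f : O[X]), IsBase p O →
    IsSelmerTrivial p f →
    ∀ (K : Type) [Field K] [Algebra O K] (n : ℕ) (s : ℕ → K), IsTowerOfRoots p O K n s →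
    ∀ (A : Type) [CommRing A] [IsDedekindDomain A] [Algebra A K] [IsFractionRing A K]
      [Algebra O A] [IsScalarTower O A K] [IsIntegralClosure A O K], InertBranching f A →
    ∀ (m : ℕ) (ζ : K), m ≠ 0 → IsPrimitiveRoot ζ (p ^ m) →
      ShaTriv p (p ^ m) A (polyOver f K) ∧
        ∀ x : Jac (p ^ m) (polyOver f K) K, ∃! y, p • y = x) ∧
  ∀ (p : ℕ) (k : Type) [Field k] (g : k[X]), p.Prime → g.Monic → p.Coprime g.natDegree →
    derivative g ≠ 0 → IsSelmerTrivial p (g.map C + C X : k[X][X])

theorem result : Statement := by
  constructor
  · intro p O _ _ f hO hf K _ _ n s hT A _ _ _ _ _ _ _ hB m ζ hm hζ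
    haveI := hf.dedekind
    have hpos : 0 < f.natDegree := by
      by_contra h
      have h1 : f = 1 := hf.monic.natDegree_eq_zero.1 (by omega)
      exact hf.irreducible.not_isUnit (h1 ▸ isUnit_one)
    obtain ⟨h1, h3⟩ := Pool.Agent.H89.GB.sha_tower (p := p) (O := O) (f := f) (K := K) (A := A)
      ⟨hO.prime, hO.unit, hO.zeta⟩ ⟨hf.monic, hpos, hf.coprime, hf.irreducible, hf.separable⟩
      hf.trivial (n := n) (s := s) ⟨hT.inj, hT.pw, hT.gen⟩ hB hm hζ
    exact ⟨shaTriv_of h1, h3⟩
  · intro p k _ g hp hg hcop hd
    have hpol := Pool.Agent.H89.GB.gt_pol hp hg hcop hd
    exact ⟨hpol.monic, hpol.cop, hpol.irr, hpol.der, Pool.Agent.H89.GB.gt_ded g,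
      Pool.Agent.H89.GB.gt_rel hp hg hcop hd⟩

end Pool.Agent.Results.MP_60d5ce_nt.RankZeroTransfer
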