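import Pool.Agent.H89.GT.Fin
import Pool.Graph.R_seed8.Y160.SL.Conv

/-!
# Exact ranks of hyperelliptic Jacobians over biquadratic extensions of towers of arbitrary global
# function fields, with two interlocking marked primes

Let `O` be a Dedekind domain in which `2` is invertible (for example the ring of functions on an affine
curve over a finite field of odd characteristic), with the field of fractions `k₀`. Let `f` be a monic
irreducible separable polynomial over `O` of odd degree, such that `S = O[x] / (f)` is a Dedekind
domain, and such that every element of `S` whose ideal is a square and whose norm to `O` is a square is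
a square in `S`. The Galois group of `f` may be the full symmetric group.

Let `K₀` be any field which is obtained from `k₀` by successive adjunctions of square roots, `A₀` the
integral closure of `O` in `K₀`, and suppose that `f` is irreducible and separable modulo the primes of
`O` which are ramified in `A₀`. The genus of `K₀` is not bounded.

Let `τ` and `τ'` be two elements of `O` which are non-associated primes of `A₀`, each of them a square
modulo the other one, such that `f` is separable modulo both, `f - τ` is the product of monic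
polynomials `Q₀, …, Q_r` over `O` which are irreducible modulo `τ A₀`, and `f - τ'` is the product of
monic polynomials `Q'₀, …, Q'_r'` which are irreducible modulo `τ' A₀`. Suppose that the matrix of the
quadratic residue symbols of the `Q'_j` modulo the `Q_i` (over the field `A₀ / τ`) has no kernel but
the diagonal one, and the same for the symbols of the `Q_i` modulo the `Q'_j` (over `A₀ / τ'`).

Theorem. Let `K = K₀(√τ, √τ')`, and let `J` be the Jacobian of the hyperelliptic curve `w ^ 2 = f(x)`.
Then the 2-primary part of the Tate-Shafarevich group of `J` over `K` is zero, and the `r + r'` points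
of `J(K)` given by the divisors `Q_i(x) = 0`, `w = √τ`, `1 ≤ i ≤ r`, and `Q'_j(x) = 0`, `w = √τ'`,
`1 ≤ j ≤ r'`, are linearly independent over `ℤ` and generate `J(K)` modulo `2 ^ n` for all `n`.

If `K` is a global function field, then it follows that `J(K)` has the rank `r + r'`, which may be
twice the dimension of `J (K₀(√τ)) ⊗ ℚ` and as large as `4 dim J`, that `Ш(J / K)` is finite of odd
order (Tate, Milne), and that the full conjecture of Birch and Swinnerton-Dyer holds for `J / K`
(Kato-Trihan), so that the `L`-function of `J / K` vanishes at `s = 1` precisely of order `r + r'`.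

Example: `O = 𝔽₁₃[T]`, `f = x (x - 1) (x - 4) + T`, `τ = T`, `τ' = T - 4`,
`f - τ = x (x - 1) (x - 4)`, `f - τ' = (x - 2) (x - 7) (x - 9)`: an elliptic curve of the rank `4` over
`K = 𝔽₁₃(T)(√T, √(T - 4))`.

The method: the classes of the descent are computed by two applications of the norm, and the residues
of the norms at the totally ramified places give the linear equations with the matrices of the symbols.
-/

set_option autoImplicit false
set_option linter.all false

open Polynomial IsDedekindDomain
open scoped Classical

namespace Pool.Agent.Results.MP_60d5ce_nt.TwoMarkedPrimes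

open Pool.Agent.Y160.SL

/-- The polynomial `f` over `O` as a polynomial over the extension `K` of `O`. -/
noncomputable def polyOver {O : Type} [CommRing O] (f : O[X]) (K : Type) [Field K] [Algebra O K] :
    K[X] := f.map (algebraMap O K)

/-- The subfield of `K` generated by the ring `O` and the elements `s j`, `j < i`. -/
def level (O : Type) [CommRing O] {K : Type} [Field K] [Algebra O K] (s : ℕ → K) (i : ℕ) :
    Subfield K :=
  Subfield.closure (Set.range (algebraMap O K) ∪ s '' {j | j < i})

/-- The field `K` is obtained from the field of fractions of `O` by successive adjunctions of the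
square roots `s 0, …, s (n - 1)`: the square of `s i` is in the field generated by `O` and the
elements `s j`, `j < i`. -/
structure IsTowerOfRoots (O : Type) [CommRing O] (K : Type) [Field K] [Algebra O K] (n : ℕ)
    (s : ℕ → K) : Prop where
  inj : Function.Injective (algebraMap O K)
  sq : ∀ i < n, s i ^ 2 ∈ level O s i
  gen : level O s n = ⊤

/-- The conditions on the polynomial `f`: it is monic, irreducible and separable, of odd degree, the
ring `S = O[x] / (f)` is a Dedekind domain, and the Selmer group of the first descent is zero: an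
element of `S` whose ideal is a square and whose norm to `O` is a square is a square. -/
structure IsSelmerTrivial {O : Type} [CommRing O] (f : O[X]) : Prop where
  monic : f.Monic
  odd : Odd f.natDegree
  irreducible : Irreducible f
  separable : derivative f ≠ 0
  dedekind : IsDedekindDomain (AdjoinRoot f)
  trivial : ∀ (I : Ideal (AdjoinRoot f)) (a : AdjoinRoot f) (c : O), a ≠ 0 →
    I ^ 2 = Ideal.span {a} → Algebra.norm O a = c ^ 2 → ∃ b : AdjoinRoot f, a = b ^ 2

/-- The polynomial `f` is irreducible and separable modulo the primes of `O` which are ramified in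
`A`. -/
def InertBranching {O : Type} [CommRing O] [IsDedekindDomain O] (f : O[X]) (A : Type) [CommRing A]
    [IsDedekindDomain A] [Algebra O A] : Prop :=
  ∀ (P : HeightOneSpectrum O) (Q : HeightOneSpectrum A),
    P.asIdeal.map (algebraMap O A) ≤ Q.asIdeal ^ 2 →
    Irreducible (f.map (Ideal.Quotient.mk P.asIdeal)) ∧
      (f.map (Ideal.Quotient.mk P.asIdeal)).Separable

/-- The polynomial `Q` over `O` as a polynomial over the residue ring `A / τ A`. -/
noncomputable def modulo {O : Type} [CommRing O] (A : Type) [CommRing A] [Algebra O A] (τ : O)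
    (Q : O[X]) : (A ⧸ Ideal.span {algebraMap O A τ})[X] :=
  Q.map ((Ideal.Quotient.mk (Ideal.span {algebraMap O A τ})).comp (algebraMap O A))

/-- The conditions on `τ` and the polynomials `Q 0, …, Q r`: the element `τ` is a prime of `A`, the
polynomial `f - τ` is the product of the monic polynomials `Q i`, which are irreducible modulo `τ A`,
and `f` is separable modulo `τ A`. -/
structure IsMarked {O : Type} [CommRing O] (f : O[X]) (τ : O) {r : ℕ} (Q : Fin (r + 1) → O[X])
    (A : Type) [CommRing A] [Algebra O A] : Prop where
  prime : Prime (algebraMap O A τ)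
  monic : ∀ i, (Q i).Monic
  prod : ∏ i, Q i = f - C τ
  irreducible : ∀ i, Irreducible (modulo A τ (Q i))
  separable : (modulo A τ f).Separable

/-- The conditions on the second marked prime `τ'` with the polynomials `Q' j` modulo the first one:
`τ'` is a square modulo `τ A`, and the matrix of the quadratic residue symbols of the `Q' j` modulo
the `Q i` is nondegenerate: if `a` is a vector of exponents such that for every `i` the product of the
polynomials `Q' j ^ a j` is a square in the ring `(A / τ A)[x] / (Q i)`, then all `a j` are congruent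
modulo `2`. -/
structure IsLinked {O : Type} [CommRing O] (τ : O) {r : ℕ} (Q : Fin (r + 1) → O[X]) (τ' : O)
    {r' : ℕ} (Q' : Fin (r' + 1) → O[X]) (A : Type) [CommRing A] [Algebra O A] : Prop where
  square : ∃ ρ : A, algebraMap O A τ' - ρ ^ 2 ∈ Ideal.span {algebraMap O A τ}
  nondegenerate : ∀ a : Fin (r' + 1) → ℕ,
    (∀ i, ∃ y : AdjoinRoot (modulo A τ (Q i)),
      AdjoinRoot.mk (modulo A τ (Q i)) (modulo A τ (∏ j, Q' j ^ a j)) = y ^ 2) →
    ∀ j k, a j ≡ a k [MOD 2]

/-- The ideal of the divisor `u(x) = 0`, `w = v(x)` in the coordinate ring of the affine curve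
`w ^ q = f(x)`. -/
noncomputable def divIdeal {K : Type} [Field K] (q : ℕ) (f u v : K[X]) : Ideal (CoordRing q f) :=
  Ideal.span {ofPoly q f u, wfun q f - ofPoly q f v}

/-- The ideal `I` of `R` is an invertible module, and `P` is its class in the Picard group. -/
def IsIdealClass {R : Type} [CommRing R] (P : Additive (CommRing.Pic R)) (I : Ideal R) : Prop :=
  ∃ _ : Module.Invertible R I, P = Additive.ofMul (CommRing.Pic.mk R I)

/-- The element `P` of `J(K) = Pic(K[x, w] / (w ^ q - f(x)))` is the class of the ideal of the divisor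
`u(x) = 0`, `w = v(x)`. -/
def IsDivisor {K : Type} [Field K] (q : ℕ) (f u v : K[X]) (P : Jac q f K) : Prop :=
  IsIdealClass (R := CoordRing q (f.map (algebraMap K K))) P
    (divIdeal q (f.map (algebraMap K K)) u v)

/-- **The theorem.** -/
def Statement : Prop :=
  ∀ (O : Type) [CommRing O] [IsDedekindDomain O] (f : O[X]), IsUnit (2 : O) →
    IsSelmerTrivial f →
    ∀ (K₀ : Type) [Field K₀] [Algebra O K₀] (n : ℕ) (s₀ : ℕ → K₀), IsTowerOfRoots O K₀ n s₀ →
    ∀ (A₀ : Type) [CommRing A₀] [IsDedekindDomain A₀] [Algebra A₀ K₀] [IsFractionRing A₀ K₀]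
      [Algebra O A₀] [IsScalarTower O A₀ K₀] [IsIntegralClosure A₀ O K₀], InertBranching f A₀ →
    ∀ (τ τ' : O) (r r' : ℕ) (Q : Fin (r + 1) → O[X]) (Q' : Fin (r' + 1) → O[X]),
      IsMarked f τ Q A₀ → IsMarked f τ' Q' A₀ →
      IsCoprime (algebraMap O A₀ τ) (algebraMap O A₀ τ') →
      IsLinked τ Q τ' Q' A₀ → IsLinked τ' Q' τ Q A₀ →
    ∀ (K : Type) [Field K] [Algebra K₀ K] [Algebra O K] [IsScalarTower O K₀ K] (s s' : K),
      s ^ 2 = algebraMap O K τ → s' ^ 2 = algebraMap O K τ' →
      IntermediateField.adjoin K₀ {s, s'} = ⊤ →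
    ∀ (A : Type) [CommRing A] [IsDedekindDomain A] [Algebra A K] [IsFractionRing A K]
      [Algebra O A] [IsScalarTower O A K] [IsIntegralClosure A O K],
      ShaTriv 2 2 A (polyOver f K) ∧
      ∃ (D : Fin r → Jac 2 (polyOver f K) K) (D' : Fin r' → Jac 2 (polyOver f K) K),
        LinearIndependent ℤ (Sum.elim D D') ∧
        (∀ (n : ℕ) (x : Jac 2 (polyOver f K) K), ∃ y : Jac 2 (polyOver f K) K,
          x - 2 ^ n • y ∈ AddSubgroup.closure (Set.range D ∪ Set.range D')) ∧
        (∀ i, IsDivisor 2 (polyOver f K) (polyOver (Q i.succ) K) (C s) (D i)) ∧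
        ∀ j, IsDivisor 2 (polyOver f K) (polyOver (Q' j.succ) K) (C s') (D' j)

theorem result : Statement := by
  intro O _ _ f h2 hf K₀ _ _ n s₀ hT A₀ _ _ _ _ _ _ _ hB τ τ' r r' Q Q' hM hM' hcop hL hL' K _ _ _ _
    s s' hs hs' htop A _ _ _ _ _ _ _
  haveI := hf.dedekind
  have hpos : 0 < f.natDegree := hf.odd.pos
  have hne : (-1 : O) ≠ 1 := by
    intro h
    have h1 : (2 : O) = 0 := by
      have h3 : (1 : O) + 1 = -1 + 1 := by rw [h]
      rw [neg_add_cancel, one_add_one_eq_two] at h3
      exact h3
    rw [h1] at h2
    exact not_isUnit_zero h2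
  have hζ : IsPrimitiveRoot (-1 : O) 2 := by
    refine IsPrimitiveRoot.mk_of_lt _ (by norm_num) (by norm_num) fun l hl0 hl => ?_
    have h1 : l = 1 := by omega
    rw [h1, pow_one]
    exact hne
  obtain ⟨ρ, hρ⟩ := hL.square
  obtain ⟨ρ', hρ'⟩ := hL'.square
  have key : Pool.Agent.Y160.SH.ShaTriv 2 2 A (polyOver f K) ∧
      ∃ D : Fin r ⊕ Fin r' → Jac 2 (polyOver f K) K,
        (LinearIndependent ℤ D ∧ ∀ (n : ℕ) (x : Jac 2 (polyOver f K) K),
          ∃ y : Jac 2 (polyOver f K) K, x - 2 ^ n • y ∈ AddSubgroup.closure (Set.range D)) ∧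
        ∀ i, Pool.Agent.Y160.SQ.IsCl K (Pool.Agent.Y160.SQ.prI 2 ((polyOver f K).map (algebraMap K K))
          (Pool.Agent.H89.GT.pts Q Q' s s' i).1 (Pool.Agent.H89.GT.pts Q Q' s s' i).2) (D i) :=
    Pool.Agent.H89.GT.sha_two (O := O) (f := f) (K0 := K₀) (K := K)
    (A0 := A₀) (A := A) (τ := τ) (τ' := τ') (Q := Q) (Q' := Q') (n := n) (s₀ := s₀) (q := 2)
    ⟨Nat.prime_two, by exact_mod_cast h2, ⟨-1, hζ⟩⟩
    ⟨hf.monic, hpos, (Nat.coprime_two_left).2 hf.odd, hf.irreducible, hf.separable⟩
    hf.trivial hs hs' htop ⟨hT.inj, hT.sq, hT.gen⟩ hB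
    ⟨hM.prime, hM.monic, hM.prod, hM.irreducible, hM.separable⟩
    ⟨hM'.prime, hM'.monic, hM'.prod, hM'.irreducible, hM'.separable⟩ hcop hρ hρ'
    hL.nondegenerate hL'.nondegenerate (by norm_num)
  obtain ⟨h1, D, ⟨h3, h4⟩, h5⟩ := key
  have hD : Sum.elim (fun i => D (Sum.inl i)) (fun j => D (Sum.inr j)) = D := by
    funext x
    rcases x with x | x <;> rfl
  refine ⟨shaTriv_of h1, fun i => D (Sum.inl i), fun j => D (Sum.inr j), ?_, ?_, ?_, ?_⟩
  · rw [hD]
    exact h3
  · intro n x
    obtain ⟨y, hy⟩ := h4 n x
    refine ⟨y, ?_⟩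
    rw [← Set.Sum.elim_range, hD]
    exact hy
  · exact fun i => Pool.Agent.Q45.TW.cl_class (h5 (Sum.inl i))
  · exact fun j => Pool.Agent.Q45.TW.cl_class (h5 (Sum.inr j))

end Pool.Agent.Results.MP_60d5ce_nt.TwoMarkedPrimes
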