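import Pool.Agent.H92F.Loc
import Pool.Agent.H92F.Exp2

/-!
# The orders of vanishing of the twists of Jacobians by groups of characters over function fields, uniformly

Jacobians (and abelian varieties, and any Euler products) over the function fields of one variable over finite fields:
in every group of characters of exponent `l^e` there are large subgroups, stable under any given small group of
automorphisms, for which the order of vanishing at the central point is at most that of the given L-function, so that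
the central values are different from zero if the central value of the given L-function is. The bounds do not depend on
the field, the varieties and their dimensions, but only on the order of vanishing and on the valuation at `l` of the
leading coefficient of the given L-functions; the bound for the covering by translates is explicit.
-/
set_option autoImplicit false
set_option linter.unusedSectionVars false

open Polynomial FF Pool.Agent.W343.BSD

namespace Pool.Agent.Results.MP_60d5ce_nt.UniformRamseyTwists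

section defs

variable {k K : Type} [Field k] [Field K] [Algebra k K]

/-- `L(T) = ∏ P_v(χ(v) T ^ (deg v))⁻¹`, the product over the places `v` of `K`, as formal power series. -/
def IsLFunction (P : Place k K → ℤ[X]) (χ : Place k K → ℂ) (L : ℂ[X]) : Prop :=
  (L : PowerSeries ℂ) * eulerProd (fun v : Place k K => S.deg v) (fun v =>
    ((((P v).map (Int.castRingHom ℂ)).comp (C (χ v) * X ^ S.deg v) : ℂ[X]) : PowerSeries ℂ)) = 1

/-- The multiplicity of the zero `q⁻¹` of `L`, where `q` is the number of elements of `k`; with `T = q ^ (-s)` it is the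
order of vanishing of `L(q ^ (-s))` at `s = 1`. -/
noncomputable def order (k : Type) (L : ℂ[X]) : ℕ := L.rootMultiplicity ((Nat.card k : ℂ)⁻¹)

/-- `L(T) = (1 - q T) ^ ρ U(T)`, where `U(q⁻¹)` is a rational number, not zero and of valuation at most `n` at `l`. So
`ρ` is the order of vanishing of `L(q ^ (-s))` at `s = 1`, and `(log q) ^ ρ U(q⁻¹)` is the leading coefficient. -/
def HasOrder (k : Type) (l n ρ : ℕ) (L : ℂ[X]) : Prop :=
  ∃ (U : ℂ[X]) (x : ℚ), L = (1 - C (Nat.card k : ℂ) * X) ^ ρ * U ∧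
    U.eval ((Nat.card k : ℂ)⁻¹) = x ∧ x ≠ 0 ∧ padicValRat l x ≤ n

/-- The value `P_v(q_v⁻¹)` of the Euler factor, where `q_v` is the number of elements of the residue field of `v`. -/
noncomputable def localValue (P : Place k K → ℤ[X]) (v : Place k K) : ℚ :=
  ((P v).map (Int.castRingHom ℚ)).eval ((Nat.card (S.Res v) : ℚ)⁻¹)

/-- The place `v` is admissible for the Euler factors `P_v` and the prime `l`: the number `P_v(q_v⁻¹)` is a unit at `l`. -/
def Admissible (l : ℕ) (P : Place k K → ℤ[X]) (v : Place k K) : Prop :=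
  localValue P v ≠ 0 ∧ padicValRat l (localValue P v) = 0

/-- `𝒢` is a group of characters `χ_g` of `K` of exponent `N`, where `T_g` is the set of the places at which `χ_g` is
ramified, all of which are in the set `A`. The character is given by its values at the Frobenius elements, `χ_g(v) = 0`
if it is ramified at `v`. -/
structure IsCharacterGroup (A : Place k K → Prop) (N : ℕ) {𝒢 : Type} [CommGroup 𝒢]
    (T : 𝒢 → Finset (Place k K)) (χ : 𝒢 → Place k K → ℂ) : Prop where
  ramified : ∀ g v, χ g v = 0 ↔ v ∈ T g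
  product : ∀ g h v, χ g v ≠ 0 → χ h v ≠ 0 → χ (g * h) v = χ g v * χ h v
  one : ∀ v, χ 1 v = 1
  exponent : ∀ g : 𝒢, g ^ N = 1
  admissible : ∀ g, ∀ v ∈ T g, A v

/-- The degree of the conductor of the (tamely ramified) character `χ_g`. -/
noncomputable def condDegree (T : Finset (Place k K)) : ℕ := ∑ v ∈ T, S.deg v

/-- The character `χ_x` is good: its values at the places in `𝒮` are `1`, and the order of vanishing at `s = 1` of the
function `L_(i, x)` is at most `ρ_i`, for all `i < m`. -/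
def Good {m : ℕ} {𝒢 : Type} (L : Fin m → 𝒢 → ℂ[X]) (ρ : Fin m → ℕ) (𝒮 : Finset (Place k K))
    (χ : 𝒢 → Place k K → ℂ) (x : 𝒢) : Prop :=
  (∀ v ∈ 𝒮, χ x v = 1) ∧ ∀ i, order k (L i x) ≤ ρ i

section extension

variable {F : Type} [Field F] [Algebra k F] [Algebra K F]

/-- The place `w` of `F` lies over the place `v` of `K`. -/
def LiesOver (w : Place k F) (v : Place k K) : Prop :=
  ∃ e : ℕ, 0 < e ∧ ∀ x : K, w.ord (algebraMap K F x) = e * v.ord x

/-- `F` is the class field of the finite group `𝓕` of characters: the order of `𝓕` is the degree of `F/K`, and the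
decomposition law holds. If `f_v` is the number of the different values `χ_g(v) ≠ 0`, `g ∈ 𝓕`, then the places of `F`
over `v` have residue fields of degree `f_v` over that of `v`, and their number is `1/f_v` times the number of the
characters in `𝓕` which are unramified at `v`. -/
structure IsClassField (k : Type) {K : Type} (F : Type) [Field k] [Field K] [Algebra k K] [Field F]
    [Algebra k F] [Algebra K F] {𝒢 : Type} [CommGroup 𝒢] (χ : 𝒢 → Place k K → ℂ)
    (𝓕 : Subgroup 𝒢) : Prop where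
  order : Nat.card 𝓕 = Module.finrank K F
  residue : ∀ (v : Place k K) (w : Place k F), LiesOver w v → Nat.card (S.Res w) =
    Nat.card (S.Res v) ^ Nat.card {z : ℂ // z ≠ 0 ∧ ∃ g ∈ 𝓕, χ g v = z}
  number : ∀ v : Place k K, Nat.card {w : Place k F // LiesOver w v} *
    Nat.card {z : ℂ // z ≠ 0 ∧ ∃ g ∈ 𝓕, χ g v = z} = Nat.card {g : 𝓕 // χ g v ≠ 0}

/-- The Euler factors over `F`: if `w` lies over `v` with residue degree `f`, then `P_v = ∏ (1 - α_i T)` and
`P'_w = ∏ (1 - α_i ^ f T)` for complex numbers `α_i`. -/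
def IsBaseChange (P : Place k K → ℤ[X]) (P' : Place k F → ℤ[X]) : Prop :=
  ∀ (v : Place k K) (w : Place k F) (f : ℕ), LiesOver w v →
    Nat.card (S.Res w) = Nat.card (S.Res v) ^ f →
    ∃ (n : ℕ) (α : Fin n → ℂ), (P v).map (Int.castRingHom ℂ) = ∏ i, (1 - C (α i) * X) ∧
      (P' w).map (Int.castRingHom ℂ) = ∏ i, (1 - C (α i ^ f) * X)

end extension

end defs

/-- **Uniform Ramsey theorem for the orders of vanishing of twists over function fields.**

Let `l` be a prime and `e, d, m, n, s, r` natural numbers. There is a function `B`, depending only on these numbers, with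
the following properties. Let `K` be the function field of a curve over a finite field `k` with `q` elements, of
characteristic different from `l`. For `i < m` let `P_(i,v)` be integral polynomials, for the places `v` of `K`, with
`P_(i,v)(0) = 1` and degree at most `D_i`. Let `𝒮` be a set of at most `s` places, and let `𝒢` be a group, finite or
infinite, of characters `χ_g` of `K` of exponent `l^e` which are ramified only at places `v ∉ 𝒮` for which all the
numbers `P_(i,v)(q_v⁻¹)` are units at `l`. Suppose that the Euler products `L_(i,g)(T) = ∏ P_(i,v)(χ_g(v) T ^ (deg v))⁻¹`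
are polynomials of degree at most `c_i + D_i ∑_(v ∈ T_g) deg v`, and that `L_(i,1)(T) = (1 - q T) ^ ρ_i U_i(T)` with
`ρ_i ≤ r` and a rational number `U_i(q⁻¹) ≠ 0` of valuation at most `n` at `l`.

The example for this problem: `P_(i,v) = L_v(J_i, T)` for Jacobians (or abelian varieties) `J_i` over `K` such that
`V_ℓ(J_i) ⊗ χ_g` has no invariants over the algebraic closure of `k`, and `D_i = 2 dim J_i`; the characters are
characters of the absolute Galois group of `K`, ramified only at places `v` where the `J_i` have semistable reduction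
and `l` does not divide the order of the group of the points over the residue field of the connected fibre at `v` of
the Néron model of `J_i` (`J_i(k_v)` for good reduction). The hypotheses on the Euler products hold by the theorem of
Grothendieck, and `L_(i,g)(q ^ (-s)) = L(J_i ⊗ χ_g, s)`; `ρ_i` is the order of vanishing of `L(J_i, s)` at `s = 1` and
`n` is a bound for the valuation of the leading coefficients. There is no arithmetic hypothesis on the `J_i`.

(1) For every group `Δ` of at most `d` automorphisms of `𝒢` and every sequence `g_0, g_1, …` in `𝒢` there are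
nonempty sets `S_k ⊆ [B(k), B(k + 1))` such that the products `∏_(j ∈ S_k) g_j` are in a `Δ`-stable subgroup `ℋ` of `𝒢`
of good characters: `χ(v) = 1` for `v ∈ 𝒮`, and the order of vanishing of `L(J_i ⊗ χ, s)` at `s = 1` is at most that of
`L(J_i, s)`, for all `i` and all `χ ∈ ℋ`. If `L(J_i, 1) ≠ 0` this means that `L(J_i ⊗ χ, 1) ≠ 0` for all `χ ∈ ℋ`.
(2) If `𝒢` is infinite it has an infinite `Δ`-stable subgroup `ℋ` of good characters.
(3) If `𝒢` has more than `l^(e B(t))` elements it has a `Δ`-stable subgroup `ℋ` of at least `t` elements, all good.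
(4) Let `N = (m n + e s) φ(l^e) + 1`. For all `g_1, …, g_N` in `𝒢` a product `∏_(j ∈ S) g_j` with a nonempty set `S` is
good. There are at most `2^N` elements `h` of `𝒢` such that for every `g ∈ 𝒢` the character `χ_(gh)` is good for one of
these `h`.
(5) There is a `C` such that for all `X` the number of the characters in `𝒢` with conductor of degree at most `X` is at
most `2^N` times the number of the good characters in `𝒢` with conductor of degree at most `X + C`.
(6) Let `F` be the class field of a finite subgroup `𝓕` of `𝒢` of good characters (for instance of a finite subgroup of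
one of the groups `ℋ`). Then the places in `𝒮` split completely in `F`, and `L(J_i / F, s)` is a polynomial in
`q ^ (-s)` of which the order of vanishing at `s = 1` is at most `ρ_i [F : K]`, for all `i`. If `L(J_i, 1) ≠ 0` then
`L(J_i / F, 1) ≠ 0`, so `J_i(F)` and `Ш(J_i / F)` are finite and Q1 holds for `J_i` over `F`, by the theorems of Tate,
Milne and Kato–Trihan. -/
theorem result (l : ℕ) (hl : l.Prime) (e d m n s r : ℕ) : ∃ B : ℕ → ℕ,
    ∀ (k K : Type) [Field k] [Finite k] [Field K] [Algebra k K], IsCurveField k K → (l : k) ≠ 0 →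
    ∀ (P : Fin m → Place k K → ℤ[X]) (D c ρ : Fin m → ℕ),
      (∀ i, ρ i ≤ r ∧ ∀ v, (P i v).coeff 0 = 1 ∧ (P i v).natDegree ≤ D i) →
    ∀ 𝒮 : Finset (Place k K), 𝒮.card ≤ s →
    ∀ (𝒢 : Type) [CommGroup 𝒢] (T : 𝒢 → Finset (Place k K)) (χ : 𝒢 → Place k K → ℂ),
      IsCharacterGroup (fun v => v ∉ 𝒮 ∧ ∀ i, Admissible l (P i) v) (l ^ e) T χ →
    ∀ L : Fin m → 𝒢 → ℂ[X], (∀ i g, IsLFunction (P i) (χ g) (L i g) ∧
        (L i g).natDegree ≤ c i + D i * condDegree (T g)) →
      (∀ i, HasOrder k l n (ρ i) (L i 1)) →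
      (∀ Δ : Subgroup (MulAut 𝒢), Finite Δ → Nat.card Δ ≤ d →
        (∀ g : ℕ → 𝒢, ∃ I : ℕ → Finset ℕ,
          (∀ j, (I j).Nonempty ∧ ∀ a ∈ I j, B j ≤ a ∧ a < B (j + 1)) ∧
          ∃ ℋ : Subgroup 𝒢, (∀ j, ∏ a ∈ I j, g a ∈ ℋ) ∧ (∀ σ ∈ Δ, ∀ x ∈ ℋ, σ x ∈ ℋ) ∧
            ∀ x ∈ ℋ, Good L ρ 𝒮 χ x) ∧
        (Infinite 𝒢 → ∃ ℋ : Subgroup 𝒢, Infinite ℋ ∧ (∀ σ ∈ Δ, ∀ x ∈ ℋ, σ x ∈ ℋ) ∧
          ∀ x ∈ ℋ, Good L ρ 𝒮 χ x) ∧
        (∀ t : ℕ, l ^ (e * B t) < Nat.card 𝒢 → ∃ ℋ : Subgroup 𝒢, t ≤ Nat.card ℋ ∧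
          (∀ σ ∈ Δ, ∀ x ∈ ℋ, σ x ∈ ℋ) ∧ ∀ x ∈ ℋ, Good L ρ 𝒮 χ x)) ∧
      (∀ N : ℕ, N = (m * n + e * s) * (l ^ e).totient + 1 →
        (∀ g : ℕ → 𝒢, ∃ I : Finset ℕ, I.Nonempty ∧ (∀ a ∈ I, a < N) ∧
          Good L ρ 𝒮 χ (∏ a ∈ I, g a)) ∧
        (∃ 𝒦 : Finset 𝒢, 𝒦.card ≤ 2 ^ N ∧ ∀ g : 𝒢, ∃ h ∈ 𝒦, Good L ρ 𝒮 χ (g * h)) ∧
        (∃ C : ℕ, ∀ X : ℕ, {g : 𝒢 | condDegree (T g) ≤ X}.encard ≤
          2 ^ N * {g : 𝒢 | condDegree (T g) ≤ X + C ∧ Good L ρ 𝒮 χ g}.encard)) ∧
      ∀ 𝓕 : Subgroup 𝒢, Finite 𝓕 → (∀ x ∈ 𝓕, Good L ρ 𝒮 χ x) →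
        ∀ (F : Type) [Field F] [Algebra k F] [Algebra K F] [IsScalarTower k K F]
          [FiniteDimensional K F], IsClassField k F χ 𝓕 →
        (∀ v ∈ 𝒮, Nat.card {w : Place k F // LiesOver w v} = Module.finrank K F) ∧
        ∀ (i : Fin m) (P' : Place k F → ℤ[X]), IsBaseChange (P i) P' →
          ∃ L' : ℂ[X], L' ≠ 0 ∧ IsLFunction P' (fun _ => 1) L' ∧
            order k L' ≤ ρ i * Module.finrank K F := by
  classical
  obtain ⟨L0, hL0⟩ := H92F.fun_towerR hl e (d + 1) n r
  refine ⟨fun j => H92F.itL L0 m j * (l ^ e) ^ (s * (d + 1)), fun k K _ _ _ _ hK hlk P D c ρ hPρ 𝒮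
    hs 𝒢 _ T χ hχ L hL hval => ?_⟩
  set B : ℕ → ℕ := fun j => H92F.itL L0 m j * (l ^ e) ^ (s * (d + 1)) with hB
  have hP : ∀ i v, (P i v).coeff 0 = 1 ∧ (P i v).natDegree ≤ D i := fun i => (hPρ i).2
  have hFF : FF.IsFF k K := ⟨hK.essFiniteType, hK.trdeg_eq_one⟩
  have hlp : Fact l.Prime := ⟨hl⟩
  have he0 : 0 < l ^ e := pow_pos hl.pos e
  have hq : 0 < Nat.card k := Nat.card_pos
  have hql : ¬ l ∣ Nat.card k := by
    intro h
    exact card_ne_zero_mod (k := k) hlk ((ZMod.natCast_eq_zero_iff _ _).2 h)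
  have hpos : ∀ v : Place k K, v.deg ≠ 0 := fun v => (Pool.Agent.H525R3.FFp.deg_pos v).ne'
  have hfin : ∀ n, {v : Place k K | v.deg ≤ n}.Finite := fun n => places_fin n
  have hcond : ∀ T : Finset (Place k K), condDegree T = ∑ v ∈ T, v.deg := by
    intro T
    unfold condDegree
    exact Finset.sum_congr rfl fun v _ => S.deg_eq v
  have hCG : H92F.CGf T χ := ⟨hχ.ramified, hχ.product, hχ.one⟩
  have hLf : ∀ i g, (L i g : PowerSeries ℂ) * eulerProd (fun v : Place k K => v.deg) (fun v =>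
      ((H92F.tw (P i v) (χ g v) v.deg : ℂ[X]) : PowerSeries ℂ)) = 1 := by
    intro i g
    have h1 := (hL i g).1
    unfold IsLFunction at h1
    simp only [S.deg_eq] at h1
    exact h1
  have hLne : ∀ i g, L i g ≠ 0 := by
    intro i g h
    have h1 := hLf i g
    rw [h, Polynomial.coe_zero, zero_mul] at h1
    exact zero_ne_one h1
  have hdeg : ∀ i g, (L i g).natDegree ≤ c i + D i * ∑ v ∈ T g, v.deg := by
    intro i g
    rw [← hcond]
    exact (hL i g).2
  have hadm : ∀ i g, ∀ v ∈ T g,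
      ¬ (l : ℤ) ∣ H92F.Qi (fun v : Place k K => v.deg) (P i) (Nat.card k) (D i) v := by
    intro i g v hv
    obtain ⟨h1, h2⟩ := (hχ.admissible g v hv).2 i
    unfold localValue at h1 h2
    rw [H92F.res_card] at h1 h2
    exact H92F.Qi_unit hl hq hql v (hP i v).2 h1 h2
  have hS : ∀ x, ∀ v ∈ 𝒮, v ∉ T x := fun x v hv hv' => (hχ.admissible x v hv').1 hv
  -- the leading coefficients
  have h0 : ∀ i, ∀ j < ρ i, H92F.tc (Nat.card k) j (L i 1) = 0 := by
    intro i j hj
    obtain ⟨U, x, hU, -, -, -⟩ := hval i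
    rw [hU]
    exact (H92F.tc_lead hq).1 j hj
  have hMex : ∀ i, ∃ M : ℤ, (Nat.card k : ℂ) ^ c i * H92F.tc (Nat.card k) (ρ i) (L i 1) = M ∧
      ¬ (l : ℤ) ^ (n + 1) ∣ M := by
    intro i
    obtain ⟨M, hM⟩ := H92F.val_intR hpos hfin hq (fun v => (hP i v).1) (fun v => (hP i v).2)
      hCG (hLf i 1) (hdeg i 1) (ρ i)
    refine ⟨M, hM, ?_⟩
    obtain ⟨U, x, hU, hUx, hx0, hxn⟩ := hval i
    rw [hU, (H92F.tc_lead hq).2, hUx] at hM
    have h2 : (((((-1) ^ ρ i * M : ℤ) : ℚ)) : ℂ) = (((Nat.card k : ℚ) ^ c i * x : ℚ) : ℂ) := by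
      push_cast
      rw [← hM]
      have h3 : (-1 : ℂ) ^ ρ i * (-1) ^ ρ i = 1 := by
        rw [← mul_pow]
        norm_num
      linear_combination ((Nat.card k : ℂ) ^ c i * x) * h3
    have h4 := H92F.not_dvd_of_val hl (c := c i) hql hx0 hxn (by exact_mod_cast h2 :
      (((-1) ^ ρ i * M : ℤ) : ℚ) = (Nat.card k : ℚ) ^ c i * x)
    exact fun h => h4 (h.mul_left _)
  choose M hM hMn using hMex
  -- the order of vanishing
  have hord : ∀ i x, (∃ j ≤ ρ i, H92F.tc (Nat.card k) j (L i x) ≠ 0) → order k (L i x) ≤ ρ i := by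
    rintro i x ⟨j, hj, h1⟩
    by_contra h2
    push Not at h2
    apply h1
    unfold order at h2
    exact H92F.tc_dvd ((pow_dvd_pow _ h2).trans (pow_rootMultiplicity_dvd (L i x) _))
      (Nat.lt_succ_of_le hj)
  -- the theorem of Ramsey type
  have hram : H92F.Ram (d + 1) B (fun x : 𝒢 => Good L ρ 𝒮 χ x) := by
    have h1 := H92F.ram_all (L := L0) (fun (i : Fin m) (x : 𝒢) => order k (L i x) ≤ ρ i)
      (fun i => ((hL0 (Place k K) (fun v => v.deg) hpos hfin (Nat.card k) (c i) (D i) hq (P i)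
          (fun v => (hP i v).1) (fun v => (hP i v).2) 𝒢 T χ (L i) hCG hχ.exponent (hLf i) (hdeg i)
          (hadm i) (ρ i) (hPρ i).1 (h0 i) (M i) (hM i) (hMn i)).mono fun x hx =>
            hord i x ⟨ρ i, le_rfl, hx⟩).toRam)
    have h2 := H92F.ram_S hCG he0 hχ.exponent 𝒮 hS (d + 1) s hs
    exact (h2.and h1).mono fun x hx => hx
  refine ⟨fun Δ hΔf hΔd => ?_, fun N hN => ?_, ?_⟩
  · -- the automorphisms
    obtain ⟨τ, i0, hτ0, hτΔ⟩ : ∃ (τ : Fin (d + 1) → 𝒢 →* 𝒢) (i0 : Fin (d + 1)),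
        (∀ x, τ i0 x = x) ∧
        ∀ σ ∈ Δ, ∀ i, ∃ j, ∀ x, (σ : 𝒢 ≃* 𝒢) (τ i x) = τ j x := by
      have : Fintype Δ := Fintype.ofFinite Δ
      have hpos : 0 < Nat.card Δ := Nat.card_pos
      obtain ⟨f, hf⟩ : ∃ f : Fin (d + 1) → Δ, Function.Surjective f := by
        have e1 : Δ ≃ Fin (Nat.card Δ) := Finite.equivFin Δ
        refine ⟨fun i => if hi : (i : ℕ) < Nat.card Δ then e1.symm ⟨i, hi⟩ else 1, fun σ => ?_⟩
        refine ⟨⟨(e1 σ : ℕ), lt_of_lt_of_le (e1 σ).2 (hΔd.trans (Nat.le_succ d))⟩, ?_⟩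
        beta_reduce
        rw [dif_pos (e1 σ).2]
        exact e1.symm_apply_apply σ
      obtain ⟨i0, hi0⟩ := hf 1
      refine ⟨fun i => ((f i : MulAut 𝒢) : 𝒢 ≃* 𝒢).toMonoidHom, i0, fun x => ?_, fun σ hσ i => ?_⟩
      · show (f i0 : MulAut 𝒢) x = x
        rw [hi0]
        rfl
      · obtain ⟨j, hj⟩ := hf (⟨σ, hσ⟩ * f i)
        refine ⟨j, fun x => ?_⟩
        show σ ((f i : MulAut 𝒢) x) = (f j : MulAut 𝒢) x
        rw [hj]
        rfl
    have hmain' : ∀ g : ℕ → 𝒢, ∃ I : ℕ → Finset ℕ,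
        (∀ j, (I j).Nonempty ∧ I j ⊆ Finset.Ico (B j) (B (j + 1))) ∧
        ∃ ℋ : Subgroup 𝒢, Subgroup.closure (Set.range fun j => ∏ a ∈ I j, g a) ≤ ℋ ∧
          (∀ σ ∈ Δ, ∀ x ∈ ℋ, σ x ∈ ℋ) ∧ ∀ x ∈ ℋ, Good L ρ 𝒮 χ x := by
      intro g
      obtain ⟨I, hI1, hI2⟩ := hram τ g
      exact ⟨I, hI1, H92.clo τ g I, H92.clo_le τ g I i0 hτ0,
        fun σ hσ x hx => H92.clo_stable τ g I σ.toMonoidHom (hτΔ σ hσ) hx, hI2⟩
    obtain ⟨φ, hφ1, hφ2⟩ := Pool.Agent.Y683.CG.sub_exists (e := l ^ e) he0 B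
      (⊤ : Subgroup 𝒢) (fun g _ => hχ.exponent g)
    obtain ⟨I, hI1, ℋ, hI2, hI3, hI4⟩ := hmain' φ
    obtain ⟨-, h4, h5⟩ := hφ2 I hI1
    refine ⟨fun g => ?_, fun hinf => ⟨ℋ, ?_, hI3, hI4⟩, fun t ht => ⟨ℋ, ?_, hI3, hI4⟩⟩
    · obtain ⟨I, hI1, ℋ, hI2, hI3, hI4⟩ := hmain' g
      refine ⟨I, fun j => ⟨(hI1 j).1, fun a ha => Finset.mem_Ico.1 ((hI1 j).2 ha)⟩, ℋ,
        fun j => hI2 (Subgroup.subset_closure ⟨j, rfl⟩), hI3, hI4⟩
    · have h6 := h4 (by
        have e1 := (Subgroup.topEquiv (G := 𝒢)).toEquiv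
        exact e1.infinite_iff.2 hinf)
      exact Infinite.of_injective _ (Subgroup.inclusion_injective hI2)
    · have h7 : 0 < Nat.card 𝒢 := lt_of_le_of_lt (Nat.zero_le _) ht
      have hfin : Finite 𝒢 := Nat.finite_of_card_ne_zero h7.ne'
      refine (h5 t ?_).trans (Nat.card_le_card_of_injective _ (Subgroup.inclusion_injective hI2))
      rw [Subgroup.card_top, ← pow_mul]
      exact ht
  · have hfirst : ∀ g : ℕ → 𝒢, ∃ I : Finset ℕ, I.Nonempty ∧ I ⊆ Finset.range N ∧
        Good L ρ 𝒮 χ (∏ a ∈ I, g a) := by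
      intro g
      obtain ⟨I, h1, h2, h3, h4⟩ := H92F.explicit hl e m n s hpos hfin hq (fun i v => (hP i v).1)
        (fun i v => (hP i v).2) hCG hχ.exponent hLf hdeg hadm hs hS h0 hM hMn g
      exact ⟨I, h1, by rw [hN]; exact h2, h3, fun i => hord i _ (h4 i)⟩
    obtain ⟨𝒦, hK1, hK2⟩ := H92.syndetic (fun x : 𝒢 => Good L ρ 𝒮 χ x) N hfirst
    refine ⟨fun g => ?_, ⟨𝒦, hK1, hK2⟩, ?_⟩
    · obtain ⟨I, h1, h2, h3⟩ := hfirst g
      exact ⟨I, h1, fun a ha => Finset.mem_range.1 (h2 ha), h3⟩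
    · obtain ⟨C, hC⟩ := H92F.count_of_cover hCG (fun v => v.deg)
        (fun x : 𝒢 => Good L ρ 𝒮 χ x) 𝒦 hK2
      refine ⟨C, fun N => ?_⟩
      simp only [hcond]
      refine (hC N).trans ?_
      gcongr
      exact_mod_cast hK1
  · intro 𝓕 h𝓕 hgood F _ _ _ _ _ hF
    have : Fintype 𝓕 := Fintype.ofFinite 𝓕
    refine ⟨fun v hv => ?_, fun i P' hP' => ?_⟩
    · have h1 : Nat.card {z : ℂ // z ≠ 0 ∧ ∃ g ∈ 𝓕, χ g v = z} = 1 := by
        have h2 : Unique {z : ℂ // z ≠ 0 ∧ ∃ g ∈ 𝓕, χ g v = z} :=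
          { default := ⟨1, one_ne_zero, 1, 𝓕.one_mem, hχ.one v⟩
            uniq := by
              rintro ⟨z, hz, g, hg, rfl⟩
              exact Subtype.ext ((hgood g hg).1 v hv) }
        exact Nat.card_unique
      have h2 : Nat.card {g : 𝓕 // χ g v ≠ 0} = Nat.card 𝓕 := by
        refine Nat.card_congr (Equiv.subtypeUnivEquiv fun g => ?_)
        rw [(hgood g.1 g.2).1 v hv]
        exact one_ne_zero
      have h3 := hF.number v
      rw [h1, h2, mul_one, hF.order] at h3
      exact h3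
    · have hFF' : FF.IsFF k F := isFF_of_finite (K := K)
      have h1 := H92F.euler_cf (F := F) hCG he0 hχ.exponent (𝓕 := 𝓕) ⟨hF.residue, hF.number⟩
        (P := P i) (P' := P') (fun v => (hP i v).1) hP'
      refine ⟨∏ g : 𝓕, L i g, Finset.prod_ne_zero_iff.2 fun g _ => hLne i g, ?_, ?_⟩
      · unfold IsLFunction
        simp only [S.deg_eq]
        have h2 : ((∏ g : 𝓕, L i g : ℂ[X]) : PowerSeries ℂ) = ∏ g : 𝓕, (L i g : PowerSeries ℂ) :=
          map_prod (Polynomial.coeToPowerSeries.ringHom (R := ℂ)) _ _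
        have h3 : (fun w : Place k F => (((((P' w).map (Int.castRingHom ℂ)).comp
            (C 1 * X ^ w.deg) : ℂ[X])) : PowerSeries ℂ)) =
            fun w : Place k F => ((H92F.tw (P' w) 1 w.deg : ℂ[X]) : PowerSeries ℂ) := rfl
        rw [h2, h3, h1, ← Finset.prod_mul_distrib]
        exact Finset.prod_eq_one fun g _ => hLf i g
      · have h5 : Nat.card 𝓕 = (Finset.univ : Finset 𝓕).card := by
          rw [Nat.card_eq_fintype_card, Finset.card_univ]
        have h6 : order k (∏ g : 𝓕, L i g) = ∑ g : 𝓕, order k (L i g) := by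
          unfold order
          exact rm_prod _ (Finset.univ : Finset 𝓕) (fun g : 𝓕 => L i g) fun g _ => hLne i g
        have h7 : ∑ g : 𝓕, order k (L i g) ≤ (Finset.univ : Finset 𝓕).card • ρ i :=
          Finset.sum_le_card_nsmul _ _ _ fun g _ => (hgood g.1 g.2).2 i
        rw [h6, ← hF.order, h5, Nat.mul_comm, ← smul_eq_mul]
        exact h7

end Pool.Agent.Results.MP_60d5ce_nt.UniformRamseyTwists
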